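import Mathlib
import Pool.Agent.U462.Sh.ZTwo

set_option autoImplicit false

/-!
# Triples `p - d, p - d', p`: every finite set of shapes and every sets of places
-/

namespace Pool.Agent.Results.MP_1039f5_nt.AnyShapesAnyPlaces

open Finset Filter
open scoped Topology
open Pool.Agent.U462.Sh.Law

/-- **Every finite set of shapes and every sets of places.** Let `D` be a finite set of pairs `(d', d)` with
`d' ≤ d`, and `T (d', d)` any set of natural numbers for each of them. There is a set `S` of rough numbers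
`≥ 2` which contains for no `(d', d)` in `D` and no `p ≥ d` in `T (d', d)` all three numbers `p - d`, `p - d'`
and `p`, with the uniform Hardy–Littlewood law for all systems of linear forms and all intervals, except for
those systems with three forms `l`, `l + d - d'`, `l + d`, `(d', d)` in `D`, for which `l` has in the interval
a value `t` with `t + d` in `T (d', d)`. -/
theorem result : ∀ D : Finset (ℕ × ℕ), (∀ e ∈ D, e.1 ≤ e.2) → ∀ T : ℕ × ℕ → Set ℕ,
    ∃ S : Set ℕ, (∀ m ∈ S, 2 ≤ m ∧ Rough m) ∧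
    (∀ e ∈ D, ∀ p ∈ T e, e.2 ≤ p → ¬ (p - e.2 ∈ S ∧ p - e.1 ∈ S ∧ p ∈ S)) ∧
    LawOn S (fun L u v => ∀ e ∈ D, ∀ a b : ℤ, (a, b) ∈ L → (a, b + ((e.2 : ℤ) - e.1)) ∈ L →
      (a, b + e.2) ∈ L → ∀ m : ℕ, u ≤ m → m < v → value (a, b) m + e.2 ∉ T e) := by
  classical
  intro D hD T
  obtain ⟨P, hP⟩ : ∃ P : ℕ × ℕ → Finset (ℤ × ℤ), P = fun e =>
      {((1 : ℤ), (0 : ℤ)), (1, (e.2 : ℤ) - e.1), (1, (e.2 : ℤ))} := ⟨_, rfl⟩
  obtain ⟨S, h1, h2, h3⟩ := Pool.Agent.U462.Sh.patOn (D.image P) (by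
    intro Q hQ
    obtain ⟨e, he, rfl⟩ := mem_image.1 hQ
    rw [hP]
    refine ⟨by simp, ?_⟩
    intro l hl
    simp only [mem_insert, mem_singleton] at hl
    rcases hl with rfl | rfl | rfl <;> exact le_rfl)
    (fun Q => {t | ∃ e ∈ D, P e = Q ∧ t + e.2 ∈ T e})
  refine ⟨S, h1, ?_, Pool.Agent.U462.Sh.on_mono ?_ h3⟩
  · rintro e he p hp hle ⟨h4, h5, h6⟩
    have hle' := hD e he
    refine h2 (P e) (mem_image_of_mem _ he) (p - e.2) ⟨e, he, rfl, by rwa [Nat.sub_add_cancel hle]⟩ ?_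
    intro l hl
    rw [hP] at hl
    simp only [mem_insert, mem_singleton] at hl
    rcases hl with rfl | rfl | rfl
    · exact ⟨_, h4, by simp⟩
    · refine ⟨_, h5, ?_⟩
      rw [Nat.cast_sub hle, Nat.cast_sub (hle'.trans hle)]
      ring
    · refine ⟨_, h6, ?_⟩
      rw [Nat.cast_sub hle]
      ring
  · intro L u v hL Q hQ l₀ hl₀ hall n hn1 hn2
    rintro ⟨e, he, hPe, h5⟩
    subst hPe
    refine hL e he l₀.1 l₀.2 hl₀ ?_ ?_ n hn1 hn2 h5
    · have := hall (1, (e.2 : ℤ) - e.1) (by rw [hP]; simp)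
      simpa using this
    · have := hall (1, (e.2 : ℤ)) (by rw [hP]; simp)
      simpa using this

end Pool.Agent.Results.MP_1039f5_nt.AnyShapesAnyPlaces
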