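import Pool.Agent.U613.GR.Tup

/-!
# The uniform Hardy–Littlewood formula for prime triples, for ALL the pairs of differences near the small multiples of
almost all the elements of very thin sets of residues

The formula `|R(x; d', d) - 1| ≤ ε` of the problem is proved for all the pairs `0 < d' < d ≤ x / log ^ 4 x` for which `d - d'`
and `d` are near small multiples of the elements of two families of residues with small Fourier coefficients, with few
exceptional pairs of elements. The families may have only `x ^ η` elements, for every `η > 0`: intervals of exponents in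
geometric progressions `s g ^ n` modulo a prime are such families (the theorem of Bourgain, Glibichuk and Konyagin).

Method: the additive energy of high order of such a family, lifted to the integers, is nearly minimal (completion and
orthogonality modulo `q`, `Pool.Agent.U613.GR.nearFam`, new here); the average over families of nearly minimal energy is
`Pool.Agent.H560R3.GB.ftuples_full` of the starting library; the exponential sums are
`Pool.Agent.U642.BG.expo` (helper642).
-/

set_option autoImplicit false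

namespace Pool.Agent.Results.MP_1039f5_nt.GeometricShifts

open Finset Filter
open Pool.Agent.H560R3.GB (primeTuples)
open Pool.Agent.H373R2.T7 (singZ nuP Admissible)
open Pool.Agent.U613.GR (Fine NearV)

/-- `π₃(x, d', d)`: the number of the primes `p ≤ x` for which `p - d` and `p - d'` are both prime. -/
def pi3 (x d' d : ℕ) : ℕ := ((Icc 1 x).filter (fun p => p.Prime ∧ (p - d).Prime ∧ (p - d').Prime)).card

/-- The number of the residue classes modulo `p` which contain `0`, `d'` or `d`. -/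
def nu (d' d p : ℕ) : ℕ :=
  ((range p).filter (fun r : ℕ => p ∣ r ∨ (p : ℤ) ∣ (r : ℤ) - d' ∨ (p : ℤ) ∣ (r : ℤ) - d)).card

/-- The partial products of the singular series of `{0, d', d}`. -/
noncomputable def singPartial (d' d z : ℕ) : ℝ :=
  ∏ p ∈ (Icc 1 z).filter Nat.Prime, (1 - (nu d' d p : ℝ) / p) / (1 - 1 / (p : ℝ)) ^ 3

/-- The normalised count `R(x; d', d)`, where `S` is the singular series of `{0, d', d}`. -/
noncomputable def R (S : ℝ) (x d' d : ℕ) : ℝ := pi3 x d' d * Real.log x ^ 3 / (S * x)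

/-- The singular series `S` of `{0, d', d}` converges, and `|R(x; d', d) - 1| ≤ ε` if it is not zero. -/
def Close (ε : ℝ) (x d' d : ℕ) : Prop :=
  ∃ S : ℝ, Tendsto (singPartial d' d) atTop (nhds S) ∧ (S ≠ 0 → |R S x d' d - 1| ≤ ε)

/-- The integer `b` is within `log ^ C x` of `c + κ v`, for some integer `κ ≠ 0` with `|κ| ≤ log ^ C x`. -/
def Near (x C : ℕ) (c : ℤ) (v b : ℕ) : Prop :=
  ∃ κ : ℤ, κ ≠ 0 ∧ |(κ : ℝ)| ≤ Real.log x ^ C ∧ |((b - (c + κ * v) : ℤ) : ℝ)| ≤ Real.log x ^ C

/-- All the pairs `0 < d' < d ≤ x / log ^ 4 x` for which `d - d'` is near a small multiple of `v 0` and `d` is near a small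
multiple of `v 1` satisfy `Close ε x d' d`. -/
def AllClose (ε : ℝ) (x C : ℕ) (c : Fin 2 → ℤ) (v : Fin 2 → ℕ) : Prop :=
  ∀ d' d : ℕ, 0 < d' → d' < d → (d : ℝ) ≤ x / Real.log x ^ 4 → Near x C (c 0) (v 0) (d - d') → Near x C (c 1) (v 1) d →
    Close ε x d' d

lemma mod_dvd (p n : ℕ) (y : ℤ) : (p : ℤ) ∣ ((n % p : ℕ) : ℤ) - y ↔ (p : ℤ) ∣ (n : ℤ) - y := by
  have h2 : ((n % p : ℕ) : ℤ) + p * ((n / p : ℕ) : ℤ) = n := by exact_mod_cast Nat.mod_add_div n p
  have h : (n : ℤ) - y = (((n % p : ℕ) : ℤ) - y) + p * ((n / p : ℕ) : ℤ) := by linarith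
  rw [h]
  exact ⟨fun h1 => dvd_add h1 (dvd_mul_right _ _), fun h1 => (dvd_add_left (dvd_mul_right _ _)).1 h1⟩

lemma inj_mod (p e r r' : ℕ) (hr : r < p) (hr' : r' < p) (h : (r + e) % p = (r' + e) % p) : r = r' := by
  have h1 : r + e ≡ r' + e [MOD p] := h
  have h2 : r ≡ r' [MOD p] := Nat.ModEq.add_right_cancel' e h1
  exact Nat.ModEq.eq_of_lt_of_lt h2 hr hr'

/-- the shifts of the triple whose smallest member is counted -/
def sh (d' d : ℕ) : Fin 2 → ℕ := ![d - d', d]

lemma nu_eq (d' d p : ℕ) (hd : d' ≤ d) (hp : 0 < p) : nuP (fun i => ((sh d' d i : ℕ) : ℤ)) p = nu d' d p := by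
  have hA : nuP (fun i => ((sh d' d i : ℕ) : ℤ)) p =
      ((range p).filter (fun r : ℕ => p ∣ r ∨ (p : ℤ) ∣ (r : ℤ) - (-(d - d' : ℤ)) ∨ (p : ℤ) ∣ (r : ℤ) - (-d))).card := by
    unfold nuP
    congr 1
    apply filter_congr
    intro r _
    rw [Fin.exists_fin_two]
    have e0 : ((sh d' d 0 : ℕ) : ℤ) = (d : ℤ) - d' := by
      change ((d - d' : ℕ) : ℤ) = _
      exact Nat.cast_sub hd
    have e1 : ((sh d' d 1 : ℕ) : ℤ) = (d : ℤ) := rfl
    beta_reduce
    rw [e0, e1, sub_neg_eq_add, sub_neg_eq_add]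
  rw [hA]
  unfold nu
  have hp1 : ((p - 1 : ℕ) : ℤ) = p - 1 := by
    rw [Nat.cast_sub hp]
    simp
  apply le_antisymm
  · apply card_le_card_of_injOn (fun r => (r + d) % p)
    · intro r hr
      rw [mem_coe, mem_filter] at hr ⊢
      refine ⟨mem_range.2 (Nat.mod_lt _ hp), ?_⟩
      rcases hr.2 with h | h | h
      · right; right
        rw [mod_dvd]
        push_cast
        rw [add_sub_cancel_right]
        exact_mod_cast h
      · right; left
        rw [mod_dvd]
        push_cast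
        have e : (r : ℤ) + d - d' = (r : ℤ) - (-(d - d' : ℤ)) := by ring
        rw [e]
        exact h
      · left
        have e : (p : ℤ) ∣ (((r + d) % p : ℕ) : ℤ) - 0 := by
          rw [mod_dvd]
          push_cast
          have e2 : (r : ℤ) + d - 0 = (r : ℤ) - (-d) := by ring
          rw [e2]
          exact h
        rw [sub_zero] at e
        exact_mod_cast e
    · intro r hr r' hr' h
      rw [mem_coe, mem_filter] at hr hr'
      exact inj_mod p d r r' (mem_range.1 hr.1) (mem_range.1 hr'.1) h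
  · apply card_le_card_of_injOn (fun r => (r + d * (p - 1)) % p)
    · intro r hr
      rw [mem_coe, mem_filter] at hr ⊢
      refine ⟨mem_range.2 (Nat.mod_lt _ hp), ?_⟩
      rcases hr.2 with h | h | h
      · right; right
        rw [mod_dvd]
        push_cast
        rw [hp1]
        have e : (r : ℤ) + d * (p - 1) - (-d) = r + p * d := by ring
        rw [e]
        exact dvd_add (by exact_mod_cast h) (dvd_mul_right _ _)
      · right; left
        rw [mod_dvd]
        push_cast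
        rw [hp1]
        have e : (r : ℤ) + d * (p - 1) - (-(d - d')) = (r - d') + p * d := by ring
        rw [e]
        exact dvd_add h (dvd_mul_right _ _)
      · left
        have e : (p : ℤ) ∣ (((r + d * (p - 1)) % p : ℕ) : ℤ) - 0 := by
          rw [mod_dvd]
          push_cast
          rw [hp1]
          have e2 : (r : ℤ) + d * (p - 1) - 0 = (r - d) + p * d := by ring
          rw [e2]
          exact dvd_add h (dvd_mul_right _ _)
        rw [sub_zero] at e
        exact_mod_cast e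
    · intro r hr r' hr' h
      rw [mem_coe, mem_filter] at hr hr'
      exact inj_mod p _ r r' (mem_range.1 hr.1) (mem_range.1 hr'.1) h

lemma sing_eq (d' d : ℕ) (hd : d' ≤ d) : singZ (fun i => ((sh d' d i : ℕ) : ℤ)) = singPartial d' d := by
  funext z
  unfold singZ singPartial
  apply prod_congr rfl
  intro p hp
  rw [mem_filter, mem_Icc] at hp
  rw [nu_eq d' d p hd (by omega)]

lemma adm_of_ne (d' d : ℕ) (hd : d' ≤ d) (S : ℝ) (hS : Tendsto (singPartial d' d) atTop (nhds S)) (h0 : S ≠ 0) :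
    Admissible (fun i => ((sh d' d i : ℕ) : ℤ)) := by
  by_contra hcon
  unfold Admissible at hcon
  push Not at hcon
  obtain ⟨p, hp, h1⟩ := hcon
  apply h0
  have h2 : nuP (fun i => ((sh d' d i : ℕ) : ℤ)) p = p := by
    unfold nuP
    rw [filter_true_of_mem, card_range]
    intro r _
    by_cases h3 : (p : ℤ) ∣ (r : ℤ)
    · left
      exact_mod_cast h3
    · right
      exact h1 r h3
  rw [nu_eq d' d p hd hp.pos] at h2
  have h3 : ∀ z : ℕ, p ≤ z → singPartial d' d z = 0 := by
    intro z hz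
    unfold singPartial
    apply prod_eq_zero (mem_filter.2 ⟨mem_Icc.2 ⟨hp.one_lt.le, hz⟩, hp⟩)
    have hp0 : (p : ℝ) ≠ 0 := by exact_mod_cast hp.ne_zero
    rw [h2, div_self hp0, sub_self, zero_div]
  have h4 : Tendsto (singPartial d' d) atTop (nhds 0) :=
    tendsto_const_nhds.congr' (eventually_atTop.2 ⟨p, fun z hz => (h3 z hz).symm⟩)
  exact tendsto_nhds_unique hS h4

lemma pi3_le (x d' d : ℕ) (hd : d' < d) : pi3 x d' d ≤ primeTuples (sh d' d) x := by
  unfold pi3 primeTuples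
  apply card_le_card_of_injOn (fun p => p - d)
  · intro p hp
    rw [mem_coe, mem_filter, mem_Icc] at hp ⊢
    obtain ⟨⟨h1, h2⟩, h3, h4, h5⟩ := hp
    have h6 := h4.two_le
    dsimp only
    refine ⟨⟨by omega, by omega⟩, h4, ?_⟩
    rw [Fin.forall_fin_two]
    constructor
    · change (p - d + (d - d')).Prime
      have : p - d + (d - d') = p - d' := by omega
      rw [this]
      exact h5
    · change (p - d + d).Prime
      have : p - d + d = p := by omega
      rw [this]
      exact h3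
  · intro p hp p' hp' h
    rw [mem_coe, mem_filter, mem_Icc] at hp hp'
    have h6 := hp.2.2.1.two_le
    have h7 := hp'.2.2.1.two_le
    dsimp only at h
    omega

lemma le_pi3 (x d' d : ℕ) (hd : d' < d) : primeTuples (sh d' d) x ≤ pi3 x d' d + d := by
  have h1 : (Icc 1 x).filter (fun p : ℕ => p.Prime ∧ ∀ i, (p + sh d' d i).Prime) ⊆
      ((Icc 1 (x - d)).filter (fun p : ℕ => p.Prime ∧ ∀ i, (p + sh d' d i).Prime)) ∪ Ioc (x - d) x := by
    intro p hp
    rw [mem_filter, mem_Icc] at hp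
    rw [mem_union, mem_filter, mem_Icc, mem_Ioc]
    by_cases h : p ≤ x - d
    · left
      exact ⟨⟨hp.1.1, h⟩, hp.2⟩
    · right
      exact ⟨by omega, hp.1.2⟩
  have h2 := (card_le_card h1).trans (card_union_le _ _)
  rw [Nat.card_Ioc] at h2
  have h3 : ((Icc 1 (x - d)).filter (fun p : ℕ => p.Prime ∧ ∀ i, (p + sh d' d i).Prime)).card ≤ pi3 x d' d := by
    unfold pi3
    apply card_le_card_of_injOn (fun p => p + d)
    · intro p hp
      rw [mem_coe, mem_filter, mem_Icc] at hp ⊢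
      obtain ⟨⟨g1, g2⟩, g3, g4⟩ := hp
      have g5 : (p + (d - d')).Prime := g4 0
      have g6 : (p + d).Prime := g4 1
      dsimp only
      refine ⟨⟨by omega, by omega⟩, g6, ?_, ?_⟩
      · have : p + d - d = p := by omega
        rw [this]
        exact g3
      · have : p + d - d' = p + (d - d') := by omega
        rw [this]
        exact g5
    · intro p _ p' _ h
      dsimp only at h
      omega
  unfold primeTuples
  omega

lemma close_of_fine (c ε : ℝ) (hc : 0 < c) (hε : 0 < ε) : ∃ x₀ : ℕ, ∀ x : ℕ, x₀ ≤ x → ∀ d' d : ℕ, d' < d →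
    (d : ℝ) ≤ x / Real.log x ^ 4 → Fine c (ε / 2) x (sh d' d) → Close ε x d' d := by
  obtain ⟨n1, hn1⟩ := Pool.Agent.U613.GR.ev_log ⌈2 / (ε * c) + 1⌉₊
  refine ⟨n1 + 3, fun x hx d' d hd hdx hF => ?_⟩
  have hL : 2 / (ε * c) + 1 ≤ Real.log x := (Nat.le_ceil _).trans (hn1 x (by omega))
  have hec : 0 < ε * c := by positivity
  have h2ec : 0 < 2 / (ε * c) := by positivity
  have hL0 : 0 < Real.log (x : ℝ) := by linarith
  have hx0 : (0 : ℝ) < x := by exact_mod_cast (by omega : 0 < x)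
  unfold Fine at hF
  rw [sing_eq d' d hd.le] at hF
  obtain ⟨S, hS, h1⟩ := hF
  refine ⟨S, hS, fun h0 => ?_⟩
  obtain ⟨hcS, h2⟩ := h1 (adm_of_ne d' d hd.le S hS h0)
  have hS0 : 0 < S := by linarith
  have g1 : (pi3 x d' d : ℝ) ≤ primeTuples (sh d' d) x := by exact_mod_cast pi3_le x d' d hd
  have g2 : (primeTuples (sh d' d) x : ℝ) ≤ pi3 x d' d + d := by exact_mod_cast le_pi3 x d' d hd
  obtain ⟨L, hLd⟩ : ∃ L, L = Real.log (x : ℝ) := ⟨_, rfl⟩
  rw [← hLd] at hL hL0 h2 hdx
  norm_num at h2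
  obtain ⟨Y, hY⟩ : ∃ Y : ℝ, Y = x / L ^ 3 := ⟨_, rfl⟩
  have hY0 : 0 < Y := by rw [hY]; positivity
  rw [← hY] at h2
  have h3 : (d : ℝ) ≤ ε / 2 * (S * Y) := by
    have e1 : (x : ℝ) / L ^ 4 = Y / L := by
      rw [hY]
      field_simp
    rw [e1] at hdx
    refine hdx.trans ?_
    rw [div_le_iff₀ hL0]
    have e2 : 1 ≤ ε / 2 * c * L := by
      have e3 : ε / 2 * c * (2 / (ε * c) + 1) = 1 + ε / 2 * c := by
        field_simp
      have e4 : ε / 2 * c * (2 / (ε * c) + 1) ≤ ε / 2 * c * L := mul_le_mul_of_nonneg_left hL (by positivity)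
      have e5 : 0 < ε / 2 * c := by positivity
      linarith
    have e6 : ε / 2 * c * L ≤ ε / 2 * S * L := by gcongr
    calc Y = Y * 1 := (mul_one _).symm
      _ ≤ Y * (ε / 2 * S * L) := mul_le_mul_of_nonneg_left (e2.trans e6) hY0.le
      _ = _ := by ring
  have h4 : |(pi3 x d' d : ℝ) - S * Y| ≤ ε * (S * Y) := by
    have h5 := abs_le.1 h2
    rw [abs_le]
    constructor <;> linarith [h5.1, h5.2]
  have h6 : R S x d' d - 1 = ((pi3 x d' d : ℝ) - S * Y) / (S * Y) := by
    unfold R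
    rw [← hLd, hY]
    field_simp
  rw [h6, abs_div, abs_of_pos (by positivity : 0 < S * Y), div_le_iff₀ (by positivity)]
  exact h4

open Classical in
/-- Let `C`, `W`, `U` and `ε > 0` be fixed.

(1) Let `δ > 0` and let `x` be large. Let `q 0`, `q 1` be moduli with `q i log ^ W x ≥ x`, let `I 0`, `I 1` be finite index sets
and `v i n`, `n ∈ I i`, residues modulo `q i` with all the nontrivial Fourier coefficients at most `|I i| x ^ (-δ)`. Then, for
arbitrary integers `c 0`, `c 1`, all but at most `|I 0| |I 1| / log ^ U x` of the pairs `(m 0, m 1)` of indices are such that ALL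
the pairs `0 < d' < d ≤ x / log ^ 4 x` with `d - d'` near a small multiple of the residue `v 0 (m 0)` and `d` near a small
multiple of the residue `v 1 (m 1)` satisfy `|R(x; d', d) - 1| ≤ ε` if the singular series of `{0, d', d}` is not zero.

(2) Let `η > 0` and let `x` be large. The same holds if `q i = p i` are primes and `v i n = s i (g i) ^ n` for the `M i`
exponents `n ∈ [a i, a i + M i)`, where `s i ≠ 0`, and the order of `g i` and `M i` are at least `(p i) ^ η`. -/
theorem result (C W U : ℕ) (ε : ℝ) (hε : 0 < ε) :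
    (∀ δ : ℝ, 0 < δ → ∃ x₀ : ℕ, ∀ x : ℕ, x₀ ≤ x → ∀ (q : Fin 2 → ℕ) [∀ i, NeZero (q i)],
      (∀ i, (x : ℝ) ≤ q i * Real.log x ^ W) → ∀ (I : Fin 2 → Finset ℕ) (v : ∀ i, ℕ → ZMod (q i)),
      (∀ i, ∀ y : ZMod (q i), y ≠ 0 →
        ‖∑ n ∈ I i, ZMod.stdAddChar (N := q i) (y * v i n)‖ ≤ (I i).card * (x : ℝ) ^ (-δ)) →
      ∀ c : Fin 2 → ℤ,
      (((Fintype.piFinset I).filter (fun m => ¬ AllClose ε x C c (fun i => (v i (m i)).val))).card : ℝ) ≤
        (∏ i, ((I i).card : ℝ)) / Real.log x ^ U) ∧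
    (∀ η : ℝ, 0 < η → ∃ x₀ : ℕ, ∀ x : ℕ, x₀ ≤ x → ∀ (p : Fin 2 → ℕ) [∀ i, Fact (p i).Prime],
      (∀ i, (x : ℝ) ≤ p i * Real.log x ^ W) → ∀ (g s : ∀ i, ZMod (p i)), (∀ i, (p i : ℝ) ^ η ≤ orderOf (g i)) →
      (∀ i, s i ≠ 0) → ∀ a M : Fin 2 → ℕ, (∀ i, (p i : ℝ) ^ η ≤ M i) → ∀ c : Fin 2 → ℤ,
      (((Fintype.piFinset (fun i => Ico (a i) (a i + M i))).filter
        (fun m => ¬ AllClose ε x C c (fun i => (s i * g i ^ m i).val))).card : ℝ) ≤
        (∏ i, (M i : ℝ)) / Real.log x ^ U) := by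
  have h1 : ∀ δ : ℝ, 0 < δ → ∃ x₀ : ℕ, ∀ x : ℕ, x₀ ≤ x → ∀ (q : Fin 2 → ℕ) [∀ i, NeZero (q i)],
      (∀ i, (x : ℝ) ≤ q i * Real.log x ^ W) → ∀ (I : Fin 2 → Finset ℕ) (v : ∀ i, ℕ → ZMod (q i)),
      (∀ i, ∀ y : ZMod (q i), y ≠ 0 →
        ‖∑ n ∈ I i, ZMod.stdAddChar (N := q i) (y * v i n)‖ ≤ (I i).card * (x : ℝ) ^ (-δ)) →
      ∀ c : Fin 2 → ℤ,
      (((Fintype.piFinset I).filter (fun m => ¬ AllClose ε x C c (fun i => (v i (m i)).val))).card : ℝ) ≤
        (∏ i, ((I i).card : ℝ)) / Real.log x ^ U := by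
    intro δ hδ
    obtain ⟨c0, hc0, hlow⟩ := Pool.Agent.H373R2.T7.singZ_low 2
    obtain ⟨h, D, V, n1, hh, h2⟩ := Pool.Agent.U613.GR.nearFam 2 1 C U W δ hδ
    obtain ⟨n2, h3⟩ := Pool.Agent.U613.GR.crit 2 1 (by norm_num) c0 (ε / 2) hc0 hlow (by positivity) h D V hh
    obtain ⟨n3, h4⟩ := close_of_fine c0 ε hc0 hε
    obtain ⟨n4, h5⟩ := Pool.Agent.U613.GR.ev_log 1
    refine ⟨n1 + n2 + n3 + n4, fun x hx q _ hq I v hI c => ?_⟩
    have hL1 : (1 : ℝ) ≤ Real.log x := by
      have := h5 x (by omega)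
      exact_mod_cast this
    apply h2 x (by omega) (Fine c0 (ε / 2) x) (h3 x (by omega)) q hq I v hI c _ (filter_subset _ _)
    intro m hm
    have h6 := (mem_filter.1 hm).2
    unfold AllClose at h6
    push Not at h6
    obtain ⟨d', d, g1, g2, g3, g4, g5, g6⟩ := h6
    refine ⟨sh d' d, ?_, fun hF => g6 (h4 x (by omega) d' d g2 g3 hF)⟩
    have hdx : d ≤ x := by
      have e1 : (x : ℝ) / Real.log x ^ 4 ≤ x := div_le_self (Nat.cast_nonneg _) (one_le_pow₀ hL1)
      exact_mod_cast g3.trans e1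
    unfold NearV
    rw [Fin.forall_fin_two]
    constructor
    · refine ⟨?_, g4⟩
      change d - d' ≤ 1 * x
      omega
    · refine ⟨?_, g5⟩
      change d ≤ 1 * x
      omega
  refine ⟨h1, fun η hη => ?_⟩
  obtain ⟨δ, hδ, n1, h2⟩ := Pool.Agent.U613.GR.geo_fam η hη W
  obtain ⟨n2, h3⟩ := h1 δ hδ
  refine ⟨n1 + n2, fun x hx p _ hp g s hg hs a M hM c => ?_⟩
  have h4 := h3 x (by omega) p hp (fun i => Ico (a i) (a i + M i)) (fun i n => s i * g i ^ n)
    (fun i y hy => h2 x (by omega) (p i) (hp i) (g i) (s i) (hg i) (hs i) (a i) (M i) (hM i) y hy) c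
  simp only [Nat.card_Ico, Nat.add_sub_cancel_left] at h4
  exact h4

end Pool.Agent.Results.MP_1039f5_nt.GeometricShifts
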