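import Pool.Agent.U288.RO.M6

/-!
# Prime triples: all the multiples and the mirror images of a pattern at once

A positive proportion of the pairs `d' < d ≤ D` such that `d'`, `d` and `d - d'` are shifted primes are such that the
normalised counts `R(x; l d', l d)` and `R(x; l (d - d'), l d)` (the mirror image) of prime triples are at least `κ`
for ALL `1 ≤ l ≤ L`, for all `D` between `log x (log log x) ^ B` and any power of `log x`.
-/

set_option autoImplicit false

open Finset Filter

namespace Pool.Agent.Results.MP_1039f5_nt.MirrorImagesAndMultiples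

/-- the number of primes `p ≤ x` such that `p - d` and `p - d'` are prime -/
noncomputable def pi3 (x : ℝ) (d' d : ℕ) : ℕ :=
  ((range (⌊x⌋₊ + 1)).filter (fun p => p.Prime ∧ (p - d).Prime ∧ (p - d').Prime)).card

/-- the factor at `p` of the singular series of `{0, d', d}` -/
noncomputable def loc (d' d : ℕ) (p : ℕ) : ℝ :=
  (1 - ((((({0, d', d} : Finset ℕ).image (fun n => n % p)).card : ℕ) : ℝ) / (p : ℝ))) / (1 - 1 / (p : ℝ)) ^ 3

/-- the singular series of `{0, d', d}` -/
noncomputable def 𝔖 (d' d : ℕ) : ℝ := ∏' p : Nat.Primes, loc d' d p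

/-- the normalised number of the triples -/
noncomputable def R (x : ℝ) (d' d : ℕ) : ℝ := pi3 x d' d * Real.log x ^ 3 / (𝔖 d' d * x)

open Classical in
/-- the pairs `(d', d)`, `1 ≤ d' < d ≤ D`; if `σ ≠ 0`, those with `d' + σ`, `d + σ` and `d - d' + σ` prime -/
noncomputable def pairs (σ : ℤ) (D : ℝ) : Finset (ℕ × ℕ) :=
  ((Icc 1 ⌊D⌋₊) ×ˢ (Icc 1 ⌊D⌋₊)).filter (fun q => q.1 < q.2 ∧ (σ ≠ 0 →
    ((q.1 : ℤ) + σ).toNat.Prime ∧ ((q.2 : ℤ) + σ).toNat.Prime ∧ ((q.2 : ℤ) - q.1 + σ).toNat.Prime))

/-- the number of the conditions -/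
def edges (σ : ℤ) : ℕ := if σ = 0 then 0 else 3

open Classical in
/-- the pairs `(d', d)` of even numbers such that for all `1 ≤ l ≤ L` the triples `{0, l d', l d}` and
`{0, l (d - d'), l d}` have a positive singular series and `R ≥ κ` -/
noncomputable def good (σ : ℤ) (L : ℕ) (D x κ : ℝ) : Finset (ℕ × ℕ) :=
  (pairs σ D).filter (fun q => Even q.1 ∧ Even q.2 ∧ ∀ l : ℕ, 1 ≤ l → l ≤ L →
    (0 < 𝔖 (l * q.1) (l * q.2) ∧ κ ≤ R x (l * q.1) (l * q.2)) ∧
    (0 < 𝔖 (l * (q.2 - q.1)) (l * q.2) ∧ κ ≤ R x (l * (q.2 - q.1)) (l * q.2)))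

open Pool.Agent.U288.RO Pool.Agent.H387R2.Uni Pool.Agent.Y851.DK

lemma card3 {a b : ℕ} (ha : 0 < a) (hab : a < b) : ({0, a, b} : Finset ℕ).card = 3 := by
  rw [card_insert_of_notMem, card_pair (by omega)]
  simp only [mem_insert, mem_singleton, not_or]
  omega

lemma 𝔖_eq {a b : ℕ} (ha : 0 < a) (hab : a < b) : 𝔖 a b = CT {0, a, b} := by
  unfold 𝔖 CT
  congr 1
  funext p
  unfold loc locT nuT
  rw [card3 ha hab]

lemma loc_eq {a b : ℕ} (ha : 0 < a) (hab : a < b) (p : ℕ) : loc a b p = locT {0, a, b} p := by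
  unfold loc locT nuT
  rw [card3 ha hab]

/-- from the count to `R` -/
lemma R_ge {x κ M : ℝ} {a b : ℕ} (hx : 3 ≤ x) (hκ : 0 < κ) (ha : 0 < a) (hab : a < b)
    (h0 : 0 < CT {0, a, b}) (h1 : CT {0, a, b} ≤ M) (h2 : κ * (x / Real.log x ^ 3) ≤ (pi3 x a b : ℝ)) :
    0 < 𝔖 a b ∧ κ / M ≤ R x a b := by
  rw [𝔖_eq ha hab]
  refine ⟨h0, ?_⟩
  unfold R
  rw [𝔖_eq ha hab]
  have hlp : 0 < Real.log x := Real.log_pos (by linarith)
  have hM : 0 < M := lt_of_lt_of_le h0 h1
  rw [div_le_div_iff₀ hM (by positivity)]
  have h3 : κ * x ≤ (pi3 x a b : ℝ) * Real.log x ^ 3 := by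
    have h4 := mul_le_mul_of_nonneg_right h2 (show 0 ≤ Real.log x ^ 3 by positivity)
    refine le_trans (le_of_eq ?_) h4
    field_simp
  calc κ * (CT {0, a, b} * x) = (κ * x) * CT {0, a, b} := by ring
    _ ≤ (κ * x) * M := mul_le_mul_of_nonneg_left h1 (by positivity)
    _ ≤ _ := mul_le_mul_of_nonneg_right h3 hM.le

/-- For all `L ≥ 1` and `σ = 0, 1, -1` there are `κ, c > 0`, `C` and `B` such that for every `A`, all large `x` and all
real `D` with `log x (log log x) ^ B ≤ D ≤ (log x) ^ A`: there are at most `C D ^ 2 / (log D) ^ e` pairs up to `D`, `e`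
the number of the conditions, and at least `c D ^ 2 / (log D) ^ e` of them are good. -/
theorem result :
    (∀ d' d : ℕ, 0 < d' → d' < d → HasProd (fun p : Nat.Primes => loc d' d p) (𝔖 d' d)) ∧
    ∀ (L : ℕ), 1 ≤ L → ∀ σ : ℤ, (σ = 0 ∨ σ = 1 ∨ σ = -1) →
      ∃ (κ c C : ℝ) (B : ℕ), 0 < κ ∧ 0 < c ∧ ∀ A : ℝ, ∃ X : ℝ, ∀ x : ℝ, X ≤ x → ∀ D : ℝ,
        Real.log x * Real.log (Real.log x) ^ B ≤ D → D ≤ Real.log x ^ A →
        c * (D ^ 2 / Real.log D ^ edges σ) ≤ ((good σ L D x κ).card : ℝ) ∧
        ((pairs σ D).card : ℝ) ≤ C * (D ^ 2 / Real.log D ^ edges σ) := by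
  classical
  refine ⟨fun d' d h1 h2 => ?_, fun L hL σ hσ => ?_⟩
  · rw [𝔖_eq h1 h2]
    have h3 := CT_hasProd {0, d', d}
    convert h3 using 2
    rw [loc_eq h1 h2]
  obtain ⟨c, κ, t, C, hc, hκ, ht, hC, B, hmain⟩ := half_mainL 2 σ hσ L hL
  have he : (Pool.Agent.U288.SP.edg (Pool.Agent.U288.RO.csF 2 σ)).card = edges σ := by
    rw [Pool.Agent.U288.SP.edg_const 2 σ]
    rfl
  rw [he] at hmain
  set M : ℝ := Real.exp (2 * (2 : ℕ) * ((((2 : ℕ) : ℝ) + 1) ^ 2 * L + t)) with hM
  have hMp : 0 < M := Real.exp_pos _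
  refine ⟨κ / 2 / M, c, C, B, by positivity, hc, fun A => ?_⟩
  have e0 : ∀ᶠ x : ℝ in atTop, (4 : ℝ) ≤ κ / 2 * (x / Real.log x ^ (2 + 1)) := by
    have h1 := (isLittleO_log_rpow_rpow_atTop ((3 : ℕ) : ℝ) (show (0 : ℝ) < 1 by norm_num)).bound
      (show (0 : ℝ) < κ / 8 by positivity)
    filter_upwards [h1, eventually_ge_atTop 3] with x hx hx3
    have hl : 0 < Real.log x := Real.log_pos (by linarith)
    rw [Real.norm_of_nonneg (Real.rpow_nonneg hl.le _), Real.norm_of_nonneg (by positivity), Real.rpow_one,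
      Real.rpow_natCast] at hx
    rw [← mul_div_assoc, le_div_iff₀ (by positivity)]
    linarith
  obtain ⟨X, hX⟩ := eventually_atTop.1 ((hmain A).and ((half_subL 2 L κ t hκ).and
    (e0.and (eventually_ge_atTop (3 : ℝ)))))
  refine ⟨X, fun x hx D hD1 hD2 => ?_⟩
  obtain ⟨h1, h2, hbigx, hx3⟩ := hX x hx
  obtain ⟨hD2', hLD, h3, h4⟩ := h1 D hD1 hD2
  have hfin : ∀ h : Fin (2 + 1) → ℕ, h 0 = 0 → univ.image h = {0, h 1, h 2} := by
    intro h h0
    ext y
    simp only [mem_image, mem_univ, true_and, mem_insert, mem_singleton]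
    constructor
    · rintro ⟨i, rfl⟩
      fin_cases i
      · exact Or.inl h0
      · exact Or.inr (Or.inl rfl)
      · exact Or.inr (Or.inr rfl)
    · rintro (rfl | rfl | rfl)
      · exact ⟨0, h0⟩
      · exact ⟨1, rfl⟩
      · exact ⟨2, rfl⟩
  constructor
  · refine h3.trans ?_
    rw [Nat.cast_le]
    apply card_le_card_of_injOn (fun h : Fin (2 + 1) → ℕ => (h 1, h 2))
    · intro h hh
      rw [mem_coe] at hh
      have h5 := h2 σ ⌊D⌋₊ h hh
      obtain ⟨h6, -, hsgt⟩ := mem_goodRL.1 hh
      simp only [Pool.Agent.U288.SP.shifts, mem_filter, Fintype.mem_piFinset, mem_range] at h6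
      obtain ⟨hr, h0, hmono, hpr⟩ := h6
      have h01 : h 0 < h 1 := hmono (by decide)
      have h12 : h 1 < h 2 := hmono (by decide)
      have hp1 : 0 < h 1 := by omega
      have hr2 := hr 2
      have hrD : (h 2 : ℝ) ≤ D := (Nat.le_floor_iff (by linarith)).1 (by omega : h 2 ≤ ⌊D⌋₊)
      rw [mem_coe]
      show (h 1, h 2) ∈ good σ L D x (κ / 2 / M)
      unfold good
      rw [mem_filter]
      have hev : ∀ i, Even (h i) := by
        have h7 := (h5 1 one_ne_zero (by simpa using hL) univ univ_nonempty).1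
        have h8 : (univ.image h).image (fun t => (1 : ℤ).natAbs * t) = univ.image h := by simp
        rw [h8] at h7
        exact fun i => even_of_adm' h7 (mem_image.2 ⟨0, mem_univ _, h0⟩) (mem_image_of_mem _ (mem_univ i))
      refine ⟨?_, hev 1, hev 2, fun l hl1 hlL => ⟨?_, ?_⟩⟩
      · unfold pairs
        rw [mem_filter, mem_product, mem_Icc, mem_Icc]
        dsimp only
        refine ⟨⟨⟨by omega, by omega⟩, by omega, by omega⟩, h12, fun hσ0 => ⟨?_, ?_, ?_⟩⟩
        · have := hpr 0 1 (by decide) hσ0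
          rw [h0] at this
          simpa [csF] using this
        · have := hpr 0 2 (by decide) hσ0
          rw [h0] at this
          simpa [csF] using this
        · have := hpr 1 2 (by decide) hσ0
          simpa [csF] using this
      · -- `-l`
        have hl0 : (-(l : ℤ)) ≠ 0 := by omega
        obtain ⟨-, e2, e3, e4⟩ := h5 (-(l : ℤ)) hl0 (by simpa using hlL) univ univ_nonempty
        have e5 : (univ.image h).image (fun t => (-(l : ℤ)).natAbs * t) = {0, l * h 1, l * h 2} := by
          rw [hfin h h0]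
          simp [image_insert]
        rw [e5] at e2 e3
        rw [card_univ, Fintype.card_fin] at e4
        have e6 : cnt2 (-(l : ℤ)) x (univ.image h) ≤ pi3 x (l * h 1) (l * h 2) := by
          unfold cnt2 pi3
          apply card_le_card
          intro m hm
          rw [mem_filter, mem_Icc] at hm
          obtain ⟨⟨hm1, hm2⟩, hm3⟩ := hm
          have e3 : ∀ a : ℕ, ((m : ℤ) + (-(l : ℤ)) * (a : ℤ)).toNat = m - l * a := by
            intro a
            have : ((m : ℤ) + (-(l : ℤ)) * (a : ℤ)) = (m : ℤ) - ((l * a : ℕ) : ℤ) := by push_cast; ring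
            rw [this]
            omega
          have f0 := hm3 (h 0) (mem_image_of_mem _ (mem_univ 0))
          have f1 := hm3 (h 1) (mem_image_of_mem _ (mem_univ 1))
          have f2 := hm3 (h 2) (mem_image_of_mem _ (mem_univ 2))
          rw [e3] at f0 f1 f2
          rw [h0, mul_zero, Nat.sub_zero] at f0
          rw [mem_filter, mem_range]
          refine ⟨?_, f0, f2, f1⟩
          have : ⌊x / 2⌋₊ ≤ ⌊x⌋₊ := Nat.floor_le_floor (by linarith)
          omega
        exact R_ge hx3 (by positivity) (Nat.mul_pos (by omega) hp1) (Nat.mul_lt_mul_of_pos_left h12 (by omega)) e2 e3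
          (e4.trans (by exact_mod_cast e6))
      · -- `l`
        have hl0 : (l : ℤ) ≠ 0 := by omega
        obtain ⟨-, -, -, e4⟩ := h5 (l : ℤ) hl0 (by simpa using hlL) univ univ_nonempty
        rw [card_univ, Fintype.card_fin] at e4
        have hset : (univ : Finset (Fin (2 + 1))).image (fun i => l * (h 2 - h i)) = {0, l * (h 2 - h 1), l * h 2} := by
          ext y
          simp only [mem_image, mem_univ, true_and, mem_insert, mem_singleton]
          constructor
          · rintro ⟨i, rfl⟩
            fin_cases i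
            · exact Or.inr (Or.inr (by simp [h0]))
            · exact Or.inr (Or.inl rfl)
            · exact Or.inl (by simp)
          · rintro (rfl | rfl | rfl)
            · exact ⟨2, by simp⟩
            · exact ⟨1, rfl⟩
            · exact ⟨0, by simp [h0]⟩
        have e3' : ∀ (m a : ℕ), ((m : ℤ) + (l : ℤ) * (a : ℤ)).toNat = m + l * a := by
          intro m a
          have : ((m : ℤ) + (l : ℤ) * (a : ℤ)) = ((m + l * a : ℕ) : ℤ) := by push_cast; ring
          rw [this, Int.toNat_natCast]
        have hll : l * (h 2 - h 1) + l * h 1 = l * h 2 := by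
          rw [← Nat.mul_add]
          congr 1
          omega
        -- the number of the `m' = m + l h 2`
        have key : ∀ m ∈ ((Icc 1 ⌊x / 2⌋₊).filter (fun m : ℕ => ∀ t ∈ univ.image h,
            ((m : ℤ) + (l : ℤ) * (t : ℤ)).toNat.Prime)), 1 ≤ m + l * h 2 ∧ m + l * h 2 ≤ ⌊x⌋₊ ∧
            (m + l * h 2).Prime ∧ (m + l * h 2 - l * h 2).Prime ∧ (m + l * h 2 - l * (h 2 - h 1)).Prime := by
          intro m hm
          rw [mem_filter, mem_Icc] at hm
          obtain ⟨⟨hm1, hm2⟩, hm3⟩ := hm
          have f0 := hm3 (h 0) (mem_image_of_mem _ (mem_univ 0))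
          have f1 := hm3 (h 1) (mem_image_of_mem _ (mem_univ 1))
          have f2 := hm3 (h 2) (mem_image_of_mem _ (mem_univ 2))
          rw [e3'] at f0 f1 f2
          rw [h0, mul_zero, Nat.add_zero] at f0
          refine ⟨by omega, ?_, f2, ?_, ?_⟩
          · apply Nat.le_floor
            push_cast
            have e4 : (m : ℝ) ≤ x / 2 := (Nat.le_floor_iff (by linarith)).1 hm2
            have e6 : (l : ℝ) * h 2 ≤ L * D := by
              apply mul_le_mul (by exact_mod_cast hlL) hrD (Nat.cast_nonneg _) (Nat.cast_nonneg _)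
            linarith
          · rw [Nat.add_sub_cancel]
            exact f0
          · have : m + l * h 2 - l * (h 2 - h 1) = m + l * h 1 := by omega
            rw [this]
            exact f1
        have e6 : cnt2 (l : ℤ) x (univ.image h) ≤ pi3 x (l * (h 2 - h 1)) (l * h 2) := by
          unfold cnt2 pi3
          apply card_le_card_of_injOn (fun m => m + l * h 2)
          · intro m hm
            obtain ⟨g1, g2, g3, g4, g5⟩ := key m hm
            rw [mem_coe, mem_filter, mem_range]
            refine ⟨?_, g3, g4, g5⟩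
            show m + l * h 2 < ⌊x⌋₊ + 1
            omega
          · intro a _ b _ hab
            simp only at hab
            omega
        have hbig : 3 < ((Icc 1 ⌊x⌋₊).filter (fun m : ℕ => ∀ t ∈ ({0, h 2 - h 1, h 2} : Finset ℕ),
            ((m : ℤ) + (-(l : ℤ)) * (t : ℤ)).toNat.Prime)).card := by
          have g0 : (4 : ℝ) ≤ κ / 2 * (x / Real.log x ^ (2 + 1)) := hbigx
          have g1 : 4 ≤ cnt2 (l : ℤ) x (univ.image h) := by
            have : ((4 : ℕ) : ℝ) ≤ (cnt2 (l : ℤ) x (univ.image h) : ℝ) := by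
              push_cast
              exact g0.trans e4
            exact_mod_cast this
          refine lt_of_lt_of_le (by omega : 3 < 4) (g1.trans ?_)
          unfold cnt2
          apply card_le_card_of_injOn (fun m => m + l * h 2)
          · intro m hm
            obtain ⟨k1, k2, k3, k4, k5⟩ := key m hm
            rw [mem_coe, mem_filter, mem_Icc]
            refine ⟨⟨k1, k2⟩, fun t ht => ?_⟩
            have e7 : ∀ a : ℕ, (((m + l * h 2 : ℕ) : ℤ) + (-(l : ℤ)) * (a : ℤ)).toNat = m + l * h 2 - l * a := by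
              intro a
              have : (((m + l * h 2 : ℕ) : ℤ) + (-(l : ℤ)) * (a : ℤ)) = ((m + l * h 2 : ℕ) : ℤ) - ((l * a : ℕ) : ℤ) := by
                push_cast; ring
              rw [this]
              omega
            show (((m + l * h 2 : ℕ) : ℤ) + (-(l : ℤ)) * (t : ℤ)).toNat.Prime
            rw [e7]
            simp only [mem_insert, mem_singleton] at ht
            rcases ht with rfl | rfl | rfl
            · rw [mul_zero, Nat.sub_zero]
              exact k3
            · exact k5
            · exact k4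
          · intro a _ b _ hab
            simp only at hab
            omega
        have hT3 : ({0, h 2 - h 1, h 2} : Finset ℕ).card = 3 := card3 (by omega) (by omega)
        have hadm := adm_of_cardL (T := {0, h 2 - h 1, h 2}) (l := -(l : ℤ)) (M := ⌊x⌋₊) (by rw [hT3]; exact hbig)
        have e8 : (({0, h 2 - h 1, h 2} : Finset ℕ).image (fun t => (-(l : ℤ)).natAbs * t)) =
            {0, l * (h 2 - h 1), l * h 2} := by
          simp [image_insert]
        rw [e8] at hadm
        have e9 : CT {0, l * (h 2 - h 1), l * h 2} ≤ M := by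
          have hne : ({0, l * (h 2 - h 1), l * h 2} : Finset ℕ).Nonempty := ⟨0, by simp⟩
          refine (CT_le (k := 2) hne (by
            rw [card3 (Nat.mul_pos (by omega) (by omega)) (Nat.mul_lt_mul_of_pos_left (by omega) (by omega))])).trans ?_
          rw [hM]
          apply Real.exp_le_exp.2
          apply mul_le_mul_of_nonneg_left _ (by positivity)
          rw [← hset]
          refine (spair_le (fun i => l * h i) (fun i => l * (h 2 - h i)) ?_ ?_ univ).trans ?_
          · intro a b hab
            have g1 : h 2 - h a = h 2 - h b := Nat.eq_of_mul_eq_mul_left (by omega) hab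
            have g2 : h a ≤ h 2 := hmono.monotone (Fin.le_last a)
            have g3 : h b ≤ h 2 := hmono.monotone (Fin.le_last b)
            exact hmono.injective (by omega)
          · intro i j
            have g2 : h i ≤ h 2 := hmono.monotone (Fin.le_last i)
            have g3 : h j ≤ h 2 := hmono.monotone (Fin.le_last j)
            have g4 : (((l * (h 2 - h i) : ℕ) : ℤ) - ((l * (h 2 - h j) : ℕ) : ℤ)) =
                -((((l * h i : ℕ) : ℤ)) - ((l * h j : ℕ) : ℤ)) := by
              rw [Nat.cast_mul, Nat.cast_mul, Nat.cast_sub g2, Nat.cast_sub g3]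
              push_cast
              ring
            rw [g4, Int.natAbs_neg]
          · exact (sgs_dil h l L (by omega) hlL).trans (by linarith)
        exact R_ge hx3 (by positivity) (Nat.mul_pos (by omega) (by omega)) (Nat.mul_lt_mul_of_pos_left (by omega) (by omega))
          (CT_pos hadm) e9 (e4.trans (by exact_mod_cast e6))
    · intro h hh h' hh' hab
      rw [mem_coe] at hh hh'
      have h6 := (mem_goodRL.1 hh).1
      have h6' := (mem_goodRL.1 hh').1
      simp only [Pool.Agent.U288.SP.shifts, mem_filter] at h6 h6'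
      simp only [Prod.mk.injEq] at hab
      funext i
      fin_cases i
      · exact h6.2.1.trans h6'.2.1.symm
      · exact hab.1
      · exact hab.2
  · refine le_trans ?_ h4
    rw [Nat.cast_le]
    apply card_le_card_of_injOn (fun q : ℕ × ℕ => (![0, q.1, q.2] : Fin (2 + 1) → ℕ))
    · intro q hq
      rw [mem_coe] at hq
      unfold pairs at hq
      rw [mem_filter, mem_product, mem_Icc, mem_Icc] at hq
      obtain ⟨⟨⟨a1, a2⟩, b1, b2⟩, hlt, hpr⟩ := hq
      rw [mem_coe]
      simp only [Pool.Agent.U288.SP.shifts, mem_filter, Fintype.mem_piFinset, mem_range]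
      refine ⟨fun i => ?_, rfl, ?_, ?_⟩
      · fin_cases i
        · show 0 < ⌊D⌋₊ + 1
          omega
        · show q.1 < ⌊D⌋₊ + 1
          omega
        · show q.2 < ⌊D⌋₊ + 1
          omega
      · rw [Fin.strictMono_iff_lt_succ]
        intro i
        fin_cases i
        · show 0 < q.1
          omega
        · show q.1 < q.2
          exact hlt
      · intro i j hij hs
        have hσ0 : σ ≠ 0 := hs
        obtain ⟨p1, p2, p3⟩ := hpr hσ0
        fin_cases i <;> fin_cases j <;> simp_all [csF]
    · intro q _ q' _ h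
      have e1 := congrFun h 1
      have e2 := congrFun h 2
      simp at e1 e2
      exact Prod.ext e1 e2

end Pool.Agent.Results.MP_1039f5_nt.MirrorImagesAndMultiples
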