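import Pool.Agent.U455.WINT

/-!
# Uniformly at every scale: every multiple of twelve is `d₁ + d₂ - d₃` with differences of many prime triples

For every `k ≥ 0` and `R` there is `C` such that for every `η > 0` and ALL large `x`, EVERY multiple `t ≥ 1` of `12` with
`C t ≤ x` is `d₁ + d₂ - d₃` with integers `R t < dᵢ ≤ C t` each of which has `k + 1` companions: distinct integers
`e₀, ..., e_k`, different from `0` and `dᵢ` and at most `C t` in absolute value, with at least `x ^ (1 - η)` integers `p`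
for which the `k + 3` numbers `p`, `p + dᵢ`, `p + e₀`, ..., `p + e_k` are primes in `[x, 2 x]`.

For `k = 0`: every multiple `t ≤ x / C` of `12` is `d₁ + d₂ - d₃` with `x ^ (1 - η)` prime triples `p, p + dᵢ, p + eᵢ` in
`[x, 2 x]` for each `i` (`dᵢ, |eᵢ| ≤ C t`), for ALL large `x`.

Proof: by the uniform coloured Maynard-Tao theorem in windows (`Pool.Agent.TH899.UG.NW.exactW`, starting files) with
`4 (k + 2)` classes, `k + 3` of the classes contain primes simultaneously; the classes are arranged in four groups, and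
two of the primes belong to different groups (`Pool.Agent.U455.WINT.c4`). Then the ternary theorem for sets meeting the
differences of four classes (`Pool.Agent.U455.TJ.all`), made uniform over all such sets by limits along ultrafilters
(`Pool.Agent.U455.UF.diff`) and over all `t` by passing to the elements divisible by `t / 12`.
-/

set_option autoImplicit false

namespace Pool.Agent.Results.MP_1039f5_nt.TriplesUniformly

open Filter

/-- `z` is a prime number in `[x, 2 x]` -/
def PrimeIn (x : ℕ) (z : ℤ) : Prop := z.toNat.Prime ∧ (x : ℤ) ≤ z ∧ z ≤ 2 * x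

/-- `d` has companions: for some `k + 1` distinct `e i ≠ 0, d` with `|e i| ≤ L` there are at least `Z` integers `p` for
which `p`, `p + d` and all `p + e i` are primes in `[x, 2 x]` -/
def Companions (k x L : ℕ) (Z : ℝ) (d : ℕ) : Prop := ∃ e : Fin (k + 1) → ℤ, Function.Injective e ∧
  (∀ i, e i ≠ 0 ∧ e i ≠ d ∧ |e i| ≤ L) ∧
  Z ≤ ({p : ℕ | PrimeIn x p ∧ PrimeIn x (p + d) ∧ ∀ i, PrimeIn x (p + e i)}.ncard : ℝ)

theorem result (k R : ℕ) : ∃ C : ℕ, ∀ η : ℝ, 0 < η → ∀ᶠ x : ℕ in atTop, ∀ t : ℕ, 12 ∣ t → 1 ≤ t → C * t ≤ x →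
    ∃ d₁ d₂ d₃ : ℕ, t + d₃ = d₁ + d₂ ∧ ∀ d ∈ ({d₁, d₂, d₃} : Finset ℕ), R * t < d ∧ d ≤ C * t ∧
      Companions k x (C * t) ((x : ℝ) ^ (1 - η)) d := by
  obtain ⟨C, hC⟩ := Pool.Agent.U455.WINT.linear (k + 1) 1 one_pos R
  refine ⟨C, fun η hη => ?_⟩
  filter_upwards [hC 1 le_rfl η hη] with x hx t ht ht1 htx
  obtain ⟨m, rfl⟩ := ht
  have hm1 : 1 ≤ m := by omega
  have hCm : C * (12 * m) = 2 * (C * (6 * m)) := by ring
  have hRm : R * (12 * m) = 2 * (R * (6 * m)) := by ring
  obtain ⟨g₁, g₂, g₃, a1, a2, a3, b1, b2, b3, hs⟩ := hx 1 (Nat.coprime_one_right 1) (6 * m) (Dvd.intro _ rfl)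
    (by omega) (by rw [one_pow, one_mul]; omega)
  have key : ∀ g : ℕ, Pool.Agent.U455.WINT.Ext (k + 1) 1 x 1 1 (C * (6 * m)) g ((x : ℝ) ^ (1 - η)) →
      Companions k x (C * (12 * m)) ((x : ℝ) ^ (1 - η)) (2 * g) := by
    rintro g ⟨u, hu1, hu2, hu3⟩
    have hW : ∀ z : ℤ, Pool.Agent.U455.WINT.W 1 x z → PrimeIn x z := by
      rintro z ⟨h1, h2, h3⟩
      refine ⟨h1, by exact_mod_cast h2, ?_⟩
      have h4 : (z : ℝ) ≤ 2 * x := by linarith
      exact_mod_cast h4
    refine ⟨fun i => 2 * u i, fun i j hij => hu1 ?_, fun i => ?_, hu3.trans ?_⟩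
    · have h1 : 2 * u i = 2 * u j := hij
      omega
    · obtain ⟨h1, h2, h3⟩ := hu2 i
      refine ⟨?_, ?_, ?_⟩
      · show 2 * u i ≠ 0
        omega
      · show 2 * u i ≠ ((2 * g : ℕ) : ℤ)
        push_cast
        omega
      · show |2 * u i| ≤ ((C * (12 * m) : ℕ) : ℤ)
        rw [hCm, abs_mul, abs_two]
        push_cast at h3 ⊢
        linarith
    · rw [Nat.cast_le]
      refine Set.ncard_le_ncard ?_ ?_
      · rintro p ⟨-, h1, h2, h3⟩
        refine ⟨hW _ h1, ?_, fun i => ?_⟩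
        · have h4 := hW _ h2
          have e : (p : ℤ) + 2 * ((1 : ℕ) : ℤ) * (g : ℤ) = (p : ℤ) + ((2 * g : ℕ) : ℤ) := by push_cast; ring
          rw [e] at h4
          exact h4
        · have h4 := hW _ (h3 i)
          have e : (p : ℤ) + 2 * ((1 : ℕ) : ℤ) * u i = (p : ℤ) + 2 * u i := by push_cast; ring
          rw [e] at h4
          exact h4
      · refine (Set.finite_le_nat (2 * x)).subset ?_
        rintro p ⟨⟨-, -, h1⟩, -, -⟩
        show p ≤ 2 * x
        exact_mod_cast h1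
  refine ⟨2 * g₁, 2 * g₂, 2 * g₃, by omega, fun d hd => ?_⟩
  simp only [Finset.mem_insert, Finset.mem_singleton] at hd
  rw [hCm, hRm]
  rcases hd with rfl | rfl | rfl
  · exact ⟨by omega, by omega, by rw [← hCm]; exact key _ a1⟩
  · exact ⟨by omega, by omega, by rw [← hCm]; exact key _ a2⟩
  · exact ⟨by omega, by omega, by rw [← hCm]; exact key _ a3⟩

end Pool.Agent.Results.MP_1039f5_nt.TriplesUniformly
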